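import Pool.Agent.helper63.NU.Defs2

set_option autoImplicit false
set_option linter.all false

/-! # NU-G1 (helper13): entropy of a monotone distribution on an order ideal of `ℕ^n`
(polar coordinates for the sup norm, Gibbs inequality, Chebyshev on each ray). -/

open MeasureTheory Filter Topology Set
open scoped ENNReal

noncomputable section

namespace Pool.Agent.helper63.NU.G1


/-- polar coordinates for `lintegral` -/
theorem polar {n : ℕ} (hn : 0 < n) (f : (Fin n → ℝ) → ℝ≥0∞) (hf : Measurable f) :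
    ∫⁻ x, f x = ∫⁻ s : Metric.sphere (0 : Fin n → ℝ) 1, (∫⁻ r in Ioi (0:ℝ),
      ENNReal.ofReal (r ^ (n-1)) * f (r • s.1)) ∂((volume : Measure (Fin n → ℝ)).toSphere) := by
  haveI : Nonempty (Fin n) := ⟨⟨0, hn⟩⟩
  haveI : Nontrivial (Fin n → ℝ) := inferInstance
  have hdim : Module.finrank ℝ (Fin n → ℝ) = n := by simp
  have h1 : ∫⁻ x, f x = ∫⁻ x : ({(0 : Fin n → ℝ)}ᶜ : Set (Fin n → ℝ)), f x.1 ∂((volume : Measure (Fin n → ℝ)).comap (↑)) := by
    rw [lintegral_subtype_comap (measurableSet_singleton _).compl f, restrict_compl_singleton]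
  rw [h1]
  have hmp := (volume : Measure (Fin n → ℝ)).measurePreserving_homeomorphUnitSphereProd
  rw [hdim] at hmp
  have h2 : ∫⁻ x : ({(0 : Fin n → ℝ)}ᶜ : Set (Fin n → ℝ)), f x.1 ∂((volume : Measure (Fin n → ℝ)).comap (↑))
      = ∫⁻ p, f (p.2.1 • p.1.1) ∂((volume : Measure (Fin n → ℝ)).toSphere.prod (Measure.volumeIoiPow (n - 1))) := by
    rw [← hmp.lintegral_comp_emb (Homeomorph.measurableEmbedding _)]
    refine lintegral_congr fun x => ?_
    congr 1
    simp only [homeomorphUnitSphereProd_apply_fst_coe, homeomorphUnitSphereProd_apply_snd_coe]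
    rw [smul_smul, mul_inv_cancel₀ (norm_ne_zero_iff.2 x.2), one_smul]
  rw [h2, lintegral_prod]
  · refine lintegral_congr fun s => ?_
    rw [Measure.volumeIoiPow, lintegral_withDensity_eq_lintegral_mul]
    · simp only [Pi.mul_apply]
      rw [lintegral_subtype_comap measurableSet_Ioi (fun r : ℝ => ENNReal.ofReal (r ^ (n-1)) * f (r • s.1))]
    · fun_prop
    · exact hf.comp (by fun_prop)
  · refine (hf.comp ?_).aemeasurable
    fun_prop

/-- the Gamma integral -/
theorem gamma_int {n : ℕ} (hn : 0 < n) {a : ℝ} (ha : 0 < a) :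
    ∫⁻ r in Ioi (0:ℝ), ENNReal.ofReal (r ^ (n-1)) * ENNReal.ofReal (Real.exp (-(r * a)))
      = ENNReal.ofReal ((n-1).factorial / a ^ n) := by
  have h := Real.integral_rpow_mul_exp_neg_mul_Ioi (a := (n:ℝ)) (r := a) (by exact_mod_cast hn) ha
  have hval : (1 / a) ^ (n:ℝ) * Real.Gamma n = (n-1).factorial / a ^ n := by
    obtain ⟨m, rfl⟩ : ∃ m, n = m + 1 := ⟨n - 1, by omega⟩
    rw [Nat.cast_add_one, Real.Gamma_nat_eq_factorial, ← Nat.cast_add_one, Real.rpow_natCast]
    simp
    field_simp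
  rw [hval] at h
  have hpos : 0 < ((n-1).factorial : ℝ) / a ^ n := by positivity
  have hint : IntegrableOn (fun t : ℝ => t ^ ((n:ℝ) - 1) * Real.exp (-(a * t))) (Ioi 0) := by
    by_contra hc
    rw [integral_undef hc] at h
    exact hpos.ne h
  rw [← h, ofReal_integral_eq_lintegral_ofReal hint]
  · refine setLIntegral_congr_fun measurableSet_Ioi fun r hr => ?_
    rw [← ENNReal.ofReal_mul (by have := hr.out.le; positivity)]
    congr 2
    · have : ((n:ℝ) - 1) = ((n - 1 : ℕ) : ℝ) := by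
        rw [Nat.cast_sub hn]; simp
      rw [this, Real.rpow_natCast]
    · ring_nf
  · filter_upwards [ae_restrict_mem measurableSet_Ioi] with t ht
    have := ht.out.le
    positivity

theorem exp_int (n : ℕ) : ∫⁻ x : Fin n → ℝ, (if ∀ i, 0 ≤ x i then ENNReal.ofReal (Real.exp (-∑ i, x i)) else 0) = 1 := by
  have hφ : Integrable (fun t : ℝ => (Ici (0:ℝ)).indicator (fun t => Real.exp (-t)) t) := by
    rw [integrable_indicator_iff measurableSet_Ici, integrableOn_Ici_iff_integrableOn_Ioi]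
    have := exp_neg_integrableOn_Ioi 0 (b := 1) (by norm_num)
    simpa using this
  have hval : ∫ t : ℝ, (Ici (0:ℝ)).indicator (fun t => Real.exp (-t)) t = 1 := by
    rw [integral_indicator measurableSet_Ici, integral_Ici_eq_integral_Ioi]
    exact integral_exp_neg_Ioi_zero
  have hI : Integrable (fun x : Fin n → ℝ => ∏ i, (Ici (0:ℝ)).indicator (fun t => Real.exp (-t)) (x i)) :=
    Integrable.fintype_prod (f := fun _ => fun t : ℝ => (Ici (0:ℝ)).indicator (fun t => Real.exp (-t)) t) (fun i => hφ)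
  have h := integral_fintype_prod_volume_eq_prod (ι := Fin n) (E := fun _ => ℝ) (𝕜 := ℝ) (fun _ => fun t : ℝ => (Ici (0:ℝ)).indicator (fun t => Real.exp (-t)) t)
  rw [hval, Finset.prod_const_one] at h
  have h2 : ∀ x : Fin n → ℝ, (if ∀ i, 0 ≤ x i then ENNReal.ofReal (Real.exp (-∑ i, x i)) else 0)
      = ENNReal.ofReal (∏ i, (Ici (0:ℝ)).indicator (fun t => Real.exp (-t)) (x i)) := by
    intro x
    split_ifs with hx
    · congr 1
      rw [← Finset.sum_neg_distrib, Real.exp_sum]
      refine Finset.prod_congr rfl fun i _ => ?_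
      rw [indicator_of_mem (by exact hx i)]
    · push Not at hx
      obtain ⟨i, hi⟩ := hx
      rw [Finset.prod_eq_zero (Finset.mem_univ i)]
      · simp
      · rw [indicator_of_notMem]; simpa using hi
  simp_rw [h2]
  rw [← ofReal_integral_eq_lintegral_ofReal hI, h, ENNReal.ofReal_one]
  exact Eventually.of_forall fun x => Finset.prod_nonneg fun i _ => indicator_nonneg (fun t _ => (Real.exp_pos _).le) _

theorem sum_pos_sphere {n : ℕ} {s : Fin n → ℝ} (hs : ‖s‖ = 1) (h0 : ∀ i, 0 ≤ s i) : 0 < ∑ i, s i := by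
  by_contra hc
  have h1 : ∑ i, s i = 0 := le_antisymm (not_lt.1 hc) (Finset.sum_nonneg fun i _ => h0 i)
  rw [Finset.sum_eq_zero_iff_of_nonneg (fun i _ => h0 i)] at h1
  have : s = 0 := funext fun i => h1 i (Finset.mem_univ i)
  rw [this, norm_zero] at hs
  exact zero_ne_one hs

theorem sphere_int {n : ℕ} (hn : 0 < n) :
    ∫⁻ s : Metric.sphere (0 : Fin n → ℝ) 1, (if ∀ i, 0 ≤ s.1 i then
      ENNReal.ofReal ((n-1).factorial / (∑ i, s.1 i) ^ n) else 0) ∂((volume : Measure (Fin n → ℝ)).toSphere) = 1 := by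
  rw [← exp_int n, polar hn]
  · refine lintegral_congr fun s => ?_
    split_ifs with hs
    · have ha : 0 < ∑ i, s.1 i := sum_pos_sphere (by simpa using s.2) hs
      rw [← gamma_int hn ha]
      refine setLIntegral_congr_fun measurableSet_Ioi fun r hr => ?_
      rw [if_pos (fun i => by simpa using mul_nonneg hr.out.le (hs i))]
      congr 3
      simp [Finset.mul_sum]
    · symm
      rw [lintegral_eq_zero_iff']
      · filter_upwards [ae_restrict_mem measurableSet_Ioi] with r hr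
        rw [if_neg]
        · simp
        · intro h
          exact hs fun i => by
            have := h i
            simp at this
            exact nonneg_of_mul_nonneg_right this hr.out
      · refine (Measurable.mul (by fun_prop) (Measurable.ite ?_ (by fun_prop) (by fun_prop))).aemeasurable
        simp only [setOf_forall]
        refine MeasurableSet.iInter fun i => measurableSet_le measurable_const (by fun_prop)
  · refine Measurable.ite ?_ (by fun_prop) (by fun_prop)
    simp only [setOf_forall]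
    refine MeasurableSet.iInter fun i => measurableSet_le measurable_const (by fun_prop)



theorem cell_iff {n : ℕ} (x : Fin n → ℝ) (α : Fin n → ℕ) :
    x ∈ Set.pi univ (fun i => Ico (α i : ℝ) (α i + 1)) ↔ (∀ i, 0 ≤ x i) ∧ (fun i => ⌊x i⌋₊) = α := by
  constructor
  · intro h
    have h0 : ∀ i, 0 ≤ x i := fun i => le_trans (Nat.cast_nonneg _) (h i trivial).1
    refine ⟨h0, funext fun i => ?_⟩
    exact (Nat.floor_eq_iff (h0 i)).2 (h i trivial)
  · rintro ⟨h0, rfl⟩ i _
    exact ⟨Nat.floor_le (h0 i), Nat.lt_floor_add_one _⟩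

theorem lint_cells {n : ℕ} (B : Finset (Fin n → ℕ)) (h : (Fin n → ℕ) → ℝ≥0∞) :
    ∫⁻ x : Fin n → ℝ, (if (∀ i, 0 ≤ x i) ∧ (fun i => ⌊x i⌋₊) ∈ B then h (fun i => ⌊x i⌋₊) else 0)
      = ∑ α ∈ B, h α := by
  have h1 : ∀ x : Fin n → ℝ, (if (∀ i, 0 ≤ x i) ∧ (fun i => ⌊x i⌋₊) ∈ B then h (fun i => ⌊x i⌋₊) else 0)
      = ∑ α ∈ B, (Set.pi univ (fun i => Ico (α i : ℝ) (α i + 1))).indicator (fun _ => h α) x := by
    intro x
    split_ifs with hx
    · rw [Finset.sum_eq_single (fun i => ⌊x i⌋₊)]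
      · rw [indicator_of_mem ((cell_iff x _).2 ⟨hx.1, rfl⟩)]
      · intro α _ hα
        rw [indicator_of_notMem]
        intro hc
        exact hα ((cell_iff x α).1 hc).2.symm
      · intro hc; exact absurd hx.2 hc
    · symm
      refine Finset.sum_eq_zero fun α hα => ?_
      rw [indicator_of_notMem]
      intro hc
      obtain ⟨h0, h1⟩ := (cell_iff x α).1 hc
      exact hx ⟨h0, by rw [h1]; exact hα⟩
  simp_rw [h1]
  have hm : ∀ α : Fin n → ℕ, MeasurableSet (Set.pi univ (fun i => Ico (α i : ℝ) (α i + 1))) :=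
    fun α => MeasurableSet.univ_pi fun i => measurableSet_Ico
  rw [lintegral_finset_sum]
  · refine Finset.sum_congr rfl fun α _ => ?_
    rw [lintegral_indicator_const (hm α), Real.volume_pi_Ico]
    simp
  · intro α _
    exact measurable_const.indicator (hm α)

theorem ray_pt {n : ℕ} (hn : 0 < n) {a c R r y z : ℝ} (ha : 0 < a) (hc : 0 < c) (hR : 0 < R) (hy : 0 ≤ y)
    (hz : z * ((n+1) * r - n * R) ≤ y * ((n+1) * r - n * R)) :
    Real.negMulLog y ≤ y * ((n * Real.log c - Real.log (n.factorial) - n - 1) + ((n+1)/c) * (r * a))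
      + (n.factorial / (R * a) ^ n) - (a / c) * (z * ((n+1) * r - n * R)) := by
  set Q : ℝ := n.factorial / (R * a) ^ n with hQ
  have hQ0 : 0 < Q := by positivity
  have h1 : Real.negMulLog y ≤ - y * Real.log Q + Q - y := by
    rcases hy.eq_or_lt with h | h
    · rw [← h]; simp [Real.negMulLog]; exact hQ0.le
    · have h2 := Real.log_le_sub_one_of_pos (div_pos hQ0 h)
      rw [Real.log_div hQ0.ne' h.ne'] at h2
      have h3 := mul_le_mul_of_nonneg_left h2 h.le
      have h4 : y * (Q / y - 1) = Q - y := by field_simp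
      rw [h4] at h3
      simp only [Real.negMulLog]
      linarith
  have h5 : - Real.log Q ≤ - Real.log (n.factorial) + n * Real.log c + n * (R * a / c - 1) := by
    rw [hQ, Real.log_div (by positivity) (by positivity), Real.log_pow]
    have h6 := Real.log_le_sub_one_of_pos (div_pos (mul_pos hR ha) hc)
    rw [Real.log_div (by positivity) (by positivity)] at h6
    have h7 := mul_le_mul_of_nonneg_left h6 (Nat.cast_nonneg (α := ℝ) n)
    linarith
  have h8 := mul_le_mul_of_nonneg_left h5 hy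
  have h9 := mul_le_mul_of_nonneg_left hz (div_pos ha hc).le
  have h10 : y * (n * (R * a / c - 1)) = y * (((n+1)/c) * (r * a)) - n * y - (a / c) * (y * ((n+1) * r - n * R)) := by
    field_simp; ring
  nlinarith

theorem ray_ineq {n : ℕ} (hn : 0 < n) {a c R C : ℝ} (ha : 0 < a) (hc : 0 < c) (hR : 0 < R)
    (φ : ℝ → ℝ) (hm : Measurable φ) (h0 : ∀ r ∈ Ioo 0 R, 0 ≤ φ r) (h1 : ∀ r ∈ Ioo 0 R, φ r ≤ 1)
    (hmono : ∀ r ∈ Ioo 0 R, ∀ r' ∈ Ioo 0 R, r ≤ r' → φ r ≤ φ r') (K : ℝ)
    (hK : K = n * Real.log c - Real.log (n.factorial) - n - 1) :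
    IntegrableOn (fun r => r ^ (n-1) * Real.negMulLog (φ r)) (Ioo 0 R) ∧
    IntegrableOn (fun r => r ^ (n-1) * (φ r * (C + ((n+1)/c) * (r * a)))) (Ioo 0 R) ∧
    IntegrableOn (fun r => r ^ (n-1) * φ r) (Ioo 0 R) ∧
    ∫ r in Ioo 0 R, r ^ (n-1) * Real.negMulLog (φ r) ≤
      (∫ r in Ioo 0 R, r ^ (n-1) * (φ r * (K + ((n+1)/c) * (r * a)))) + (n-1).factorial / a ^ n := by
  have hbd : ∀ ψ : ℝ → ℝ, Measurable ψ → ∀ D : ℝ, (∀ r ∈ Ioo 0 R, |ψ r| ≤ D) → IntegrableOn ψ (Ioo 0 R) := by
    intro ψ hψ D hD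
    refine Measure.integrableOn_of_bounded (M := D) (by simp) hψ.aestronglyMeasurable ?_
    filter_upwards [ae_restrict_mem measurableSet_Ioo] with r hr
    exact hD r hr
  have hpow : ∀ r ∈ Ioo 0 R, 0 ≤ r ^ (n-1) ∧ r ^ (n-1) ≤ R ^ (n-1) := fun r hr =>
    ⟨pow_nonneg hr.1.le _, pow_le_pow_left₀ hr.1.le hr.2.le _⟩
  have hI1 : IntegrableOn (fun r => r ^ (n-1) * Real.negMulLog (φ r)) (Ioo 0 R) := by
    refine hbd _ (by fun_prop) (R ^ (n-1) * 1) fun r hr => ?_
    rw [abs_mul, abs_of_nonneg (hpow r hr).1]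
    refine mul_le_mul (hpow r hr).2 ?_ (abs_nonneg _) (pow_nonneg hR.le _)
    rw [abs_of_nonneg (Real.negMulLog_nonneg (h0 r hr) (h1 r hr))]
    have := Real.negMulLog_le_one_sub_self (h0 r hr)
    linarith [h0 r hr]
  have hI2 : ∀ C : ℝ, IntegrableOn (fun r => r ^ (n-1) * (φ r * (C + ((n+1)/c) * (r * a)))) (Ioo 0 R) := by
    intro C
    refine hbd _ (by fun_prop) (R ^ (n-1) * (1 * (|C| + ((n+1)/c) * (R * a)))) fun r hr => ?_
    rw [abs_mul, abs_of_nonneg (hpow r hr).1, abs_mul, abs_of_nonneg (h0 r hr)]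
    have h3 : |C + ((n+1)/c) * (r * a)| ≤ |C| + ((n+1)/c) * (R * a) := by
      refine (abs_add_le _ _).trans ?_
      rw [abs_of_nonneg (a := ((n:ℝ)+1)/c * (r * a)) (by have := hr.1; positivity)]
      have := hr.2.le
      gcongr
    have h4 : 0 ≤ ((n:ℝ)+1)/c * (R * a) := by positivity
    refine mul_le_mul (hpow r hr).2 (mul_le_mul (h1 r hr) h3 (abs_nonneg _) zero_le_one) ?_ (pow_nonneg hR.le _)
    exact mul_nonneg (h0 r hr) (abs_nonneg _)
  have hI3 : IntegrableOn (fun r => r ^ (n-1) * φ r) (Ioo 0 R) := by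
    refine hbd _ (by fun_prop) (R ^ (n-1) * 1) fun r hr => ?_
    rw [abs_mul, abs_of_nonneg (hpow r hr).1, abs_of_nonneg (h0 r hr)]
    exact mul_le_mul (hpow r hr).2 (h1 r hr) (h0 r hr) (pow_nonneg hR.le _)
  refine ⟨hI1, hI2 C, hI3, ?_⟩
  set Q : ℝ := n.factorial / (R * a) ^ n with hQ
  set rs : ℝ := n * R / (n + 1) with hrs
  have hn' : (0:ℝ) < n := by exact_mod_cast hn
  have hrs0 : rs ∈ Ioo 0 R := by
    constructor
    · positivity
    · rw [hrs, div_lt_iff₀ (by positivity)]; nlinarith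
  set z := φ rs
  have hpt : ∀ r ∈ Ioo 0 R, r ^ (n-1) * Real.negMulLog (φ r) ≤
      r ^ (n-1) * (φ r * (K + ((n+1)/c) * (r * a))) + (Q * r ^ (n-1) - (a / c * z) * ((n+1) * r ^ n - n * R * r ^ (n-1))) := by
    intro r hr
    have hz : z * ((n+1) * r - n * R) ≤ φ r * ((n+1) * r - n * R) := by
      rcases le_total rs r with h | h
      · have := hmono rs hrs0 r hr h
        refine mul_le_mul_of_nonneg_right this ?_
        rw [hrs, div_le_iff₀ (by positivity)] at h
        linarith
      · have := hmono r hr rs hrs0 h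
        refine mul_le_mul_of_nonpos_right this ?_
        rw [hrs, le_div_iff₀ (by positivity)] at h
        linarith
    have h3 := mul_le_mul_of_nonneg_left (ray_pt hn ha hc hR (h0 r hr) hz) (hpow r hr).1
    refine h3.trans (le_of_eq ?_)
    rw [← hQ, ← hK]
    obtain ⟨m, rfl⟩ : ∃ m, n = m + 1 := ⟨n - 1, by omega⟩
    simp only [Nat.add_sub_cancel]
    ring
  have hI4 : IntegrableOn (fun r : ℝ => Q * r ^ (n-1) - (a / c * z) * ((n+1) * r ^ n - n * R * r ^ (n-1))) (Ioo 0 R) := by
    refine (Continuous.integrableOn_Icc (by fun_prop)).mono_set Ioo_subset_Icc_self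
  have hval : ∫ r in Ioo 0 R, (Q * r ^ (n-1) - (a / c * z) * ((n+1) * r ^ n - n * R * r ^ (n-1))) = (n-1).factorial / a ^ n := by
    rw [← integral_Ioc_eq_integral_Ioo, ← intervalIntegral.integral_of_le hR.le]
    obtain ⟨m, rfl⟩ : ∃ m, n = m + 1 := ⟨n - 1, by omega⟩
    simp only [Nat.add_sub_cancel]
    have hder : ∀ x ∈ uIcc 0 R, HasDerivAt (fun x : ℝ => Q * (x ^ (m+1) / (m+1)) - (a / c * z) * (x ^ (m+1+1) - R * x ^ (m+1)))
        (Q * x ^ m - (a / c * z) * (((m+1 : ℕ) + 1) * x ^ (m+1) - (m+1 : ℕ) * R * x ^ m)) x := by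
      intro x _
      have e1 := hasDerivAt_pow (m+1) x
      have e2 := hasDerivAt_pow (m+1+1) x
      have e3 := ((e1.div_const ((m:ℝ)+1)).const_mul Q).sub ((e2.sub (e1.const_mul R)).const_mul (a / c * z))
      refine e3.congr_deriv ?_
      have hm1 : (m:ℝ) + 1 ≠ 0 := by positivity
      simp only [Nat.add_sub_cancel]
      push_cast
      field_simp
    rw [intervalIntegral.integral_eq_sub_of_hasDerivAt hder (Continuous.intervalIntegrable (by fun_prop) _ _)]
    have hR' := hR.ne'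
    have hm1 : (m:ℝ) + 1 ≠ 0 := by positivity
    rw [hQ, Nat.factorial_succ]
    push_cast
    rw [mul_pow]
    field_simp
    ring
  calc ∫ r in Ioo 0 R, r ^ (n-1) * Real.negMulLog (φ r) ≤
      ∫ r in Ioo 0 R, (r ^ (n-1) * (φ r * (K + ((n+1)/c) * (r * a))) + (Q * r ^ (n-1) - (a / c * z) * ((n+1) * r ^ n - n * R * r ^ (n-1)))) :=
        setIntegral_mono_on hI1 ((hI2 K).add hI4) measurableSet_Ioo hpt
    _ = _ := by rw [integral_add (hI2 K) hI4, hval]


theorem entropy_le_aux {n : ℕ} (hn : 0 < n) (B : Finset (Fin n → ℕ))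
    (hB : ∀ α ∈ B, ∀ β, β ≤ α → β ∈ B) (g : (Fin n → ℕ) → ℝ) (hg0 : ∀ α ∈ B, 0 ≤ g α)
    (hg1 : ∑ α ∈ B, g α = 1) (hmono : ∀ α ∈ B, ∀ β ∈ B, α ≤ β → g α ≤ g β) {c K : ℝ} (hc : 0 < c)
    (hK : K = n * Real.log c - Real.log (n.factorial) - n - 1) :
    ∑ α ∈ B, Real.negMulLog (g α) ≤ K + ((n+1)/c) * ((∑ α ∈ B, g α * (∑ i, (α i : ℝ))) + n) + 1 := by
  classical
  have hgle : ∀ α ∈ B, g α ≤ 1 := fun α hα => by
    rw [← hg1]; exact Finset.single_le_sum (f := g) hg0 hα
  have hBne : B.Nonempty := by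
    rcases B.eq_empty_or_nonempty with h | h
    · rw [h] at hg1; simp at hg1
    · exact h
  have h0B : (0 : Fin n → ℕ) ∈ B := by
    obtain ⟨α, hα⟩ := hBne
    exact hB α hα 0 (fun i => Nat.zero_le _)
  set Km : ℝ := max (-K) 0 with hKm
  set Kp : ℝ := max K 0 with hKp
  have hKK : K = Kp - Km := by
    rw [hKm, hKp]
    rcases le_total K 0 with h | h
    · rw [max_eq_right h, max_eq_left (by linarith)]; ring
    · rw [max_eq_left h, max_eq_right (by linarith)]; ring
  have hKm0 : 0 ≤ Km := le_max_right _ _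
  have hKp0 : 0 ≤ Kp := le_max_right _ _
  set cond : (Fin n → ℝ) → Prop := fun x => (∀ i, 0 ≤ x i) ∧ (fun i => ⌊x i⌋₊) ∈ B with hcond
  have hflm : Measurable (fun x : Fin n → ℝ => fun i => ⌊x i⌋₊) := by
    refine measurable_pi_iff.2 fun i => ?_
    exact Nat.measurable_floor.comp (measurable_pi_apply i)
  have hcm : MeasurableSet {x | cond x} := by
    refine MeasurableSet.inter (s₁ := {x : Fin n → ℝ | ∀ i, 0 ≤ x i}) ?_ ?_
    · simp only [setOf_forall]
      exact MeasurableSet.iInter fun i => measurableSet_le measurable_const (by fun_prop)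
    · exact hflm (B.measurableSet)
  have hgm : Measurable g := measurable_of_countable _
  set F1 : (Fin n → ℝ) → ℝ≥0∞ := fun x => if cond x then
    ENNReal.ofReal (Real.negMulLog (g (fun i => ⌊x i⌋₊)) + Km * g (fun i => ⌊x i⌋₊)) else 0 with hF1
  set F2 : (Fin n → ℝ) → ℝ≥0∞ := fun x => if cond x then
    ENNReal.ofReal (g (fun i => ⌊x i⌋₊) * (Kp + ((n+1)/c) * ∑ i, x i)) else 0 with hF2
  have hF1m : Measurable F1 := by
    refine Measurable.ite hcm ?_ measurable_const
    refine ENNReal.measurable_ofReal.comp ?_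
    exact (Real.continuous_negMulLog.measurable.comp (hgm.comp hflm)).add ((hgm.comp hflm).const_mul _)
  have hF2m : Measurable F2 := by
    refine Measurable.ite hcm ?_ measurable_const
    refine ENNReal.measurable_ofReal.comp ?_
    exact (hgm.comp hflm).mul (by fun_prop)
  -- the inequality on the rays
  have hray : ∀ s : Metric.sphere (0 : Fin n → ℝ) 1,
      ∫⁻ r in Ioi (0:ℝ), ENNReal.ofReal (r ^ (n-1)) * F1 (r • s.1) ≤
      (∫⁻ r in Ioi (0:ℝ), ENNReal.ofReal (r ^ (n-1)) * F2 (r • s.1)) +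
        (if ∀ i, 0 ≤ s.1 i then ENNReal.ofReal ((n-1).factorial / (∑ i, s.1 i) ^ n) else 0) := by
    intro s
    by_cases hs : ∀ i, 0 ≤ s.1 i
    swap
    · have : ∫⁻ r in Ioi (0:ℝ), ENNReal.ofReal (r ^ (n-1)) * F1 (r • s.1) = 0 := by
        rw [setLIntegral_congr_fun (g := fun _ => 0) measurableSet_Ioi]
        · simp
        · intro r hr
          simp only [hF1]
          rw [if_neg]
          · simp
          · rintro ⟨h, _⟩
            refine hs fun i => ?_
            have := h i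
            simp only [Pi.smul_apply, smul_eq_mul] at this
            exact nonneg_of_mul_nonneg_right this hr.out
      rw [this]
      exact zero_le
    rw [if_pos hs]
    have hnorm : ‖s.1‖ = 1 := by simpa using s.2
    set a : ℝ := ∑ i, s.1 i with ha
    have ha0 : 0 < a := sum_pos_sphere hnorm hs
    set T : Set ℝ := {r | 0 < r ∧ (fun i => ⌊r * s.1 i⌋₊) ∈ B} with hT
    have hTd : ∀ r ∈ T, ∀ r', 0 < r' → r' ≤ r → r' ∈ T := by
      intro r hr r' h0 h1
      refine ⟨h0, hB _ hr.2 _ fun i => ?_⟩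
      exact Nat.floor_mono (mul_le_mul_of_nonneg_right h1 (hs i))
    have hsle : ∀ i, s.1 i ≤ 1 := fun i => by
      have := norm_le_pi_norm s.1 i
      rw [hnorm, Real.norm_eq_abs] at this
      exact (le_abs_self _).trans this
    have hhalf : (1/2 : ℝ) ∈ T := by
      refine ⟨by norm_num, ?_⟩
      convert h0B using 1
      funext i
      simp only [Pi.zero_apply]
      rw [Nat.floor_eq_zero]
      linarith [hsle i]
    have hTb : BddAbove T := by
      refine ⟨((∑ α ∈ B, ∑ i, (α i : ℝ)) + n) / a, ?_⟩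
      intro r hr
      rw [le_div_iff₀ ha0]
      have h1 : ∑ i, ((⌊r * s.1 i⌋₊ : ℕ) : ℝ) ≤ ∑ α ∈ B, ∑ i, (α i : ℝ) :=
        Finset.single_le_sum (f := fun α : Fin n → ℕ => ∑ i, (α i : ℝ))
          (fun α _ => Finset.sum_nonneg fun i _ => Nat.cast_nonneg _) hr.2
      have h2 : r * a ≤ ∑ i, ((⌊r * s.1 i⌋₊ : ℕ) + (1:ℝ)) := by
        rw [ha, Finset.mul_sum]
        exact Finset.sum_le_sum fun i _ => (Nat.lt_floor_add_one _).le
      rw [Finset.sum_add_distrib] at h2
      simp at h2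
      linarith
    set R : ℝ := sSup T with hR
    have hR0 : 0 < R := lt_of_lt_of_le (by norm_num) (le_csSup hTb hhalf)
    have hTR : ∀ r ∈ T, r ≤ R := fun r hr => le_csSup hTb hr
    have hRT : ∀ r ∈ Ioo 0 R, r ∈ T := by
      intro r hr
      obtain ⟨r', hr', hlt⟩ := exists_lt_of_lt_csSup ⟨_, hhalf⟩ hr.2
      exact hTd r' hr' r hr.1 hlt.le
    set φ : ℝ → ℝ := fun r => g (fun i => ⌊r * s.1 i⌋₊) with hφ
    have hφm : Measurable φ := by
      refine hgm.comp (measurable_pi_iff.2 fun i => ?_)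
      exact Nat.measurable_floor.comp (by fun_prop)
    have hφ0 : ∀ r ∈ Ioo 0 R, 0 ≤ φ r := fun r hr => hg0 _ (hRT r hr).2
    have hφ1 : ∀ r ∈ Ioo 0 R, φ r ≤ 1 := fun r hr => hgle _ (hRT r hr).2
    have hφmono : ∀ r ∈ Ioo 0 R, ∀ r' ∈ Ioo 0 R, r ≤ r' → φ r ≤ φ r' := by
      intro r hr r' hr' h
      refine hmono _ (hRT r hr).2 _ (hRT r' hr').2 fun i => ?_
      exact Nat.floor_mono (mul_le_mul_of_nonneg_right h (hs i))
    obtain ⟨i1, i2, i3, hmain⟩ := ray_ineq hn (C := Kp) ha0 hc hR0 φ hφm hφ0 hφ1 hφmono K hK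
    obtain ⟨_, i4, _, _⟩ := ray_ineq hn (C := K) ha0 hc hR0 φ hφm hφ0 hφ1 hφmono K hK
    have hsm : ∀ r : ℝ, (fun i => ⌊(r • s.1) i⌋₊) = fun i => ⌊r * s.1 i⌋₊ := fun r => rfl
    have hcT : ∀ r : ℝ, 0 < r → (cond (r • s.1) ↔ r ∈ T) := by
      intro r hr
      constructor
      · intro h; exact ⟨hr, h.2⟩
      · intro h; exact ⟨fun i => by simpa using mul_nonneg hr.le (hs i), h.2⟩
    have e1 : ∫⁻ r in Ioi (0:ℝ), ENNReal.ofReal (r ^ (n-1)) * F1 (r • s.1)
        = ENNReal.ofReal (∫ r in Ioo 0 R, (r ^ (n-1) * Real.negMulLog (φ r) + Km * (r ^ (n-1) * φ r))) := by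
      rw [ofReal_integral_eq_lintegral_ofReal]
      · rw [← lintegral_indicator measurableSet_Ioi, ← lintegral_indicator measurableSet_Ioo]
        refine lintegral_congr_ae ?_
        have hR' : ∀ᵐ r : ℝ, r ≠ R := by
          simp [ae_iff]
        filter_upwards [hR'] with r hrR
        by_cases h1 : r ∈ Ioo 0 R
        · rw [indicator_of_mem h1, indicator_of_mem (by exact h1.1)]
          simp only [hF1]
          rw [if_pos ((hcT r h1.1).2 (hRT r h1)), ← ENNReal.ofReal_mul (pow_nonneg h1.1.le _)]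
          congr 1
          simp only [hφ, hsm]
          ring
        · rw [indicator_of_notMem h1]
          by_cases h2 : r ∈ Ioi (0:ℝ)
          · rw [indicator_of_mem h2]
            simp only [hF1]
            rw [if_neg]
            · simp
            · rw [hcT r h2]
              intro h3
              exact h1 ⟨h2, lt_of_le_of_ne (hTR r h3) hrR⟩
          · rw [indicator_of_notMem h2]
      · exact i1.add (i3.const_mul _)
      · filter_upwards [ae_restrict_mem measurableSet_Ioo] with r hr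
        have := Real.negMulLog_nonneg (hφ0 r hr) (hφ1 r hr)
        have := hφ0 r hr
        have := pow_nonneg hr.1.le (n-1)
        simp only [Pi.zero_apply]
        positivity
    have e2 : ENNReal.ofReal (∫ r in Ioo 0 R, (r ^ (n-1) * (φ r * (Kp + ((n+1)/c) * (r * a)))))
        ≤ ∫⁻ r in Ioi (0:ℝ), ENNReal.ofReal (r ^ (n-1)) * F2 (r • s.1) := by
      rw [ofReal_integral_eq_lintegral_ofReal i2]
      · refine le_trans (le_of_eq ?_) (lintegral_mono_set (s := Ioo 0 R) fun x hx => hx.1)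
        refine setLIntegral_congr_fun measurableSet_Ioo fun r hr => ?_
        simp only [hF2]
        rw [if_pos ((hcT r hr.1).2 (hRT r hr)), ← ENNReal.ofReal_mul (pow_nonneg hr.1.le _)]
        congr 1
        simp only [hφ, hsm, Pi.smul_apply, smul_eq_mul, ha, Finset.mul_sum]
      · filter_upwards [ae_restrict_mem measurableSet_Ioo] with r hr
        have := hφ0 r hr
        have := pow_nonneg hr.1.le (n-1)
        have := hr.1.le
        simp only [Pi.zero_apply]
        positivity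
    rw [e1]
    refine le_trans ?_ (add_le_add_left e2 _)
    rw [← ENNReal.ofReal_add]
    · refine ENNReal.ofReal_le_ofReal ?_
      rw [integral_add i1 (i3.const_mul _), integral_const_mul]
      have e3 : ∫ r in Ioo 0 R, (r ^ (n-1) * (φ r * (Kp + ((n+1)/c) * (r * a))))
          = (∫ r in Ioo 0 R, (r ^ (n-1) * (φ r * (K + ((n+1)/c) * (r * a))))) + Km * ∫ r in Ioo 0 R, (r ^ (n-1) * φ r) := by
        rw [← integral_const_mul, ← integral_add i4 (i3.const_mul _)]
        refine integral_congr_ae (Eventually.of_forall fun r => ?_)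
        simp only
        rw [hKK]; ring
      rw [e3]
      linarith
    · refine setIntegral_nonneg measurableSet_Ioo fun r hr => ?_
      have := hφ0 r hr
      have := pow_nonneg hr.1.le (n-1)
      have := hr.1.le
      positivity
    · positivity
  -- integrate over the sphere
  have htot : ∫⁻ x, F1 x ≤ (∫⁻ x, F2 x) + 1 := by
    rw [polar hn F1 hF1m, polar hn F2 hF2m, ← sphere_int hn, ← lintegral_add_right]
    · exact lintegral_mono hray
    · refine Measurable.ite ?_ (by fun_prop) (by fun_prop)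
      simp only [setOf_forall]
      exact MeasurableSet.iInter fun i => measurableSet_le measurable_const
        ((measurable_pi_apply i).comp measurable_subtype_coe)
  have hl : ∫⁻ x, F1 x = ENNReal.ofReal (∑ α ∈ B, (Real.negMulLog (g α) + Km * g α)) := by
    rw [ENNReal.ofReal_sum_of_nonneg]
    · exact lint_cells B (fun α => ENNReal.ofReal (Real.negMulLog (g α) + Km * g α))
    · intro α hα
      have := Real.negMulLog_nonneg (hg0 α hα) (hgle α hα)
      have := hg0 α hα
      positivity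
  have hr : ∫⁻ x, F2 x ≤ ENNReal.ofReal (∑ α ∈ B, (g α * (Kp + ((n+1)/c) * ((∑ i, (α i : ℝ)) + n)))) := by
    rw [ENNReal.ofReal_sum_of_nonneg]
    · rw [← lint_cells B (fun α => ENNReal.ofReal (g α * (Kp + ((n+1)/c) * ((∑ i, (α i : ℝ)) + n))))]
      refine lintegral_mono fun x => ?_
      simp only [hF2]
      split_ifs with h
      · refine ENNReal.ofReal_le_ofReal (mul_le_mul_of_nonneg_left ?_ (hg0 _ h.2))
        have h2 : ∑ i, x i ≤ ∑ i, ((⌊x i⌋₊ : ℕ) + (1:ℝ)) :=
          Finset.sum_le_sum fun i _ => (Nat.lt_floor_add_one _).le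
        rw [Finset.sum_add_distrib] at h2
        simp at h2
        gcongr
      · exact le_rfl
    · intro α hα
      have := hg0 α hα
      positivity
  have hfin : ENNReal.ofReal (∑ α ∈ B, (Real.negMulLog (g α) + Km * g α)) ≤
      ENNReal.ofReal ((∑ α ∈ B, (g α * (Kp + ((n+1)/c) * ((∑ i, (α i : ℝ)) + n)))) + 1) := by
    rw [← hl, ENNReal.ofReal_add, ENNReal.ofReal_one]
    · exact htot.trans (add_le_add_left hr _)
    · refine Finset.sum_nonneg fun α hα => ?_
      have := hg0 α hα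
      positivity
    · exact zero_le_one
  rw [ENNReal.ofReal_le_ofReal_iff] at hfin
  · rw [Finset.sum_add_distrib, ← Finset.mul_sum, hg1] at hfin
    have e4 : ∑ α ∈ B, (g α * (Kp + ((n+1)/c) * ((∑ i, (α i : ℝ)) + n)))
        = Kp * ∑ α ∈ B, g α + ((n+1)/c) * ((∑ α ∈ B, g α * (∑ i, (α i : ℝ))) + n * ∑ α ∈ B, g α) := by
      rw [Finset.mul_sum, Finset.mul_sum, ← Finset.sum_add_distrib, Finset.mul_sum, ← Finset.sum_add_distrib]
      refine Finset.sum_congr rfl fun α _ => ?_
      ring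
    rw [e4, hg1] at hfin
    rw [hKK]
    linarith
  · refine add_nonneg (Finset.sum_nonneg fun α hα => ?_) zero_le_one
    have := hg0 α hα
    positivity

end Pool.Agent.helper63.NU.G1

namespace Pool.Agent.helper63.NU

/-- Entropy of a nondecreasing probability distribution on an order ideal of `ℕ^n` with mean degree
`S`. -/
theorem entropy_le {n : ℕ} (hn : 0 < n) (B : Finset (Fin n → ℕ))
    (hB : ∀ α ∈ B, ∀ β, β ≤ α → β ∈ B) (g : (Fin n → ℕ) → ℝ) (hg0 : ∀ α ∈ B, 0 ≤ g α)
    (hg1 : ∑ α ∈ B, g α = 1) (hmono : ∀ α ∈ B, ∀ β ∈ B, α ≤ β → g α ≤ g β) :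
    -∑ α ∈ B, g α * Real.log (g α)
      ≤ n * Real.log ((n + 1) * ((∑ α ∈ B, g α * (∑ i, (α i : ℝ))) + n) / n)
        - Real.log (n.factorial) := by
  set S : ℝ := (∑ α ∈ B, g α * (∑ i, (α i : ℝ))) + n with hS
  have hn' : (0:ℝ) < n := by exact_mod_cast hn
  have hS0 : 0 < S := by
    have : 0 ≤ ∑ α ∈ B, g α * (∑ i, (α i : ℝ)) := Finset.sum_nonneg fun α hα => by
      have := hg0 α hα
      positivity
    linarith
  have hc : 0 < ((n:ℝ) + 1) * S / n := by positivity
  have h := G1.entropy_le_aux hn B hB g hg0 hg1 hmono hc rfl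
  rw [← hS] at h
  have e1 : (((n:ℝ)+1)/(((n:ℝ) + 1) * S / n)) * S = n := by field_simp
  rw [e1] at h
  have e2 : ∑ α ∈ B, Real.negMulLog (g α) = -∑ α ∈ B, g α * Real.log (g α) := by
    rw [← Finset.sum_neg_distrib]
    refine Finset.sum_congr rfl fun α _ => ?_
    simp [Real.negMulLog]
  rw [e2] at h
  linarith

end Pool.Agent.helper63.NU
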